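import Pool.Agent.Results.MP_6e7c44_mp.LagrangeEquilibriaEscape

set_option autoImplicit false

/-!
# Relative periodic orbits near Lagrange's triangles are not Lyapunov stable

The planar three-body problem with masses `m 0, m 1, m 2` (gravitational constant `1`), bodies in
`ℂ`, in the centre of mass frame.  For an open set of masses (`m 0` and `m 1` almost equal, `m 2`
small) no relative periodic orbit that stays close to a Lagrange homographic solution
(equilateral triangle, eccentricity at most `η`) is Lyapunov stable: in every neighbourhood there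
are states of the centre of mass frame from which body `2` escapes to infinity.
-/

namespace Pool.Agent.Results.MP_5027f4_mp.LagrangeTrianglesUnstable

open Set Filter Topology Pool.Agent.Results.MP_6e7c44_mp.LagrangeEquilibriaEscape

/-- The phase space in the centre of mass frame: no collisions, `∑ m_a q_a = 0`,
`∑ m_a v_a = 0`. -/
def phaseSpace (m : Fin 3 → ℝ) : Set State :=
  {z | (∀ a b, a ≠ b → z.1 a ≠ z.1 b) ∧ ∑ a, (m a : ℂ) * z.1 a = 0 ∧ ∑ a, (m a : ℂ) * z.2 a = 0}

/-- `x = (q, v)` is a solution of Newton's equations on the time set `J`, in the centre of mass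
frame. -/
def IsSol (m : Fin 3 → ℝ) (J : Set ℝ) (x : ℝ → State) : Prop :=
  ∀ t ∈ J, x t ∈ phaseSpace m ∧ HasDerivWithinAt x ((x t).2, accel m (x t).1) J t

/-- All mutual distances of `x` are `T`-periodic functions of time. -/
def DistPer (x : ℝ → State) (T : ℝ) : Prop :=
  ∀ t a b, ‖(x (t + T)).1 a - (x (t + T)).1 b‖ = ‖(x t).1 a - (x t).1 b‖

/-- Lyapunov stability of an orbit `γ` in the centre of mass frame: for every neighbourhood `U₁`
there is a neighbourhood `U₂` such that every solution on `[0, ∞)` that starts in `U₂` stays in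
`U₁`. -/
def LyapunovStable (m : Fin 3 → ℝ) (γ : Set State) : Prop :=
  ∀ U₁ : Set State, IsOpen U₁ → γ ⊆ U₁ → ∃ U₂ : Set State, IsOpen U₂ ∧ γ ⊆ U₂ ∧
    ∀ y : ℝ → State, IsSol m (Ici 0) y → y 0 ∈ U₂ → ∀ t : ℝ, 0 ≤ t → y t ∈ U₁

/-- the weighted mean -/
noncomputable def com (m : Fin 3 → ℝ) (q : Fin 3 → ℂ) : ℂ :=
  (∑ a, (m a : ℂ) * q a) / ((∑ a, m a : ℝ) : ℂ)

/-- passage to the centre of mass frame -/
noncomputable def cent (m : Fin 3 → ℝ) (z : State) : State :=
  (fun a => z.1 a - com m z.1, fun a => z.2 a - com m z.2)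

theorem com_accel (m : Fin 3 → ℝ) (q : Fin 3 → ℂ) : ∑ a, (m a : ℂ) * accel m q a = 0 := by
  unfold accel
  have e0 : (Finset.univ : Finset (Fin 3)).erase 0 = {1, 2} := by decide
  have e1 : (Finset.univ : Finset (Fin 3)).erase 1 = {0, 2} := by decide
  have e2 : (Finset.univ : Finset (Fin 3)).erase 2 = {0, 1} := by decide
  rw [Fin.sum_univ_three, e0, e1, e2]
  rw [Finset.sum_pair (by decide), Finset.sum_pair (by decide), Finset.sum_pair (by decide)]
  rw [norm_sub_rev (q 0) (q 1), norm_sub_rev (q 0) (q 2), norm_sub_rev (q 1) (q 2)]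
  push_cast
  ring

theorem accel_shift (m : Fin 3 → ℝ) (q : Fin 3 → ℂ) (c : ℂ) :
    accel m (fun a => q a - c) = accel m q := by
  funext a
  unfold accel
  apply Finset.sum_congr rfl
  intro b _
  have : q b - c - (q a - c) = q b - q a := by ring
  simp only [this]

theorem sum_cent (m : Fin 3 → ℝ) (hm : ∀ a, 0 < m a) (q : Fin 3 → ℂ) :
    ∑ a, (m a : ℂ) * (q a - com m q) = 0 := by
  have hM : ((∑ a, m a : ℝ) : ℂ) ≠ 0 := by
    have : 0 < ∑ a, m a := Finset.sum_pos (fun a _ => hm a) ⟨0, Finset.mem_univ 0⟩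
    exact_mod_cast this.ne'
  have h1 : ∑ a, (m a : ℂ) * (q a - com m q) =
      ∑ a, (m a : ℂ) * q a - (∑ a, (m a : ℂ)) * com m q := by
    rw [Finset.sum_mul, ← Finset.sum_sub_distrib]
    exact Finset.sum_congr rfl fun a _ => by ring
  rw [h1]
  have h2 : (∑ a, (m a : ℂ)) = ((∑ a, m a : ℝ) : ℂ) := by push_cast; rfl
  rw [h2]
  unfold com
  rw [mul_div_cancel₀ _ hM, sub_self]

theorem cent_mem {m : Fin 3 → ℝ} (hm : ∀ a, 0 < m a) {z : State}
    (hz : ∀ a b, a ≠ b → z.1 a ≠ z.1 b) : cent m z ∈ phaseSpace m := by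
  refine ⟨fun a b hab h => hz a b hab ?_, sum_cent m hm z.1, sum_cent m hm z.2⟩
  have : z.1 a - com m z.1 = z.1 b - com m z.1 := h
  linear_combination this

theorem cent_of_mem {m : Fin 3 → ℝ} {z : State} (hz : z ∈ phaseSpace m) : cent m z = z := by
  have h1 : com m z.1 = 0 := by unfold com; rw [hz.2.1, zero_div]
  have h2 : com m z.2 = 0 := by unfold com; rw [hz.2.2, zero_div]
  unfold cent
  rw [h1, h2]
  simp

theorem continuous_com (m : Fin 3 → ℝ) : Continuous (com m) := by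
  unfold com
  fun_prop

theorem continuous_cent (m : Fin 3 → ℝ) : Continuous (cent m) := by
  have h := continuous_com m
  unfold cent
  fun_prop

/-- the passage to the centre of mass frame preserves solutions -/
theorem isSol_cent {m : Fin 3 → ℝ} (hm : ∀ a, 0 < m a) {y : ℝ → State} (hy : Solves m y) :
    IsSol m (Ici 0) (fun t => cent m (y t)) := by
  intro t ht
  obtain ⟨hc, hd⟩ := hy t ht
  refine ⟨cent_mem hm hc, ?_⟩
  have hq : ∀ a, HasDerivWithinAt (fun t => (y t).1 a) ((y t).2 a) (Ici 0) t := fun a =>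
    (hasDerivWithinAt_pi.1 hd.fst) a
  have hv : ∀ a, HasDerivWithinAt (fun t => (y t).2 a) (accel m (y t).1 a) (Ici 0) t := fun a =>
    (hasDerivWithinAt_pi.1 hd.snd) a
  have hcq : HasDerivWithinAt (fun t => com m (y t).1) (com m (y t).2) (Ici 0) t := by
    unfold com
    exact (HasDerivWithinAt.fun_sum fun a _ => (hq a).const_mul (m a : ℂ)).div_const _
  have hcv : HasDerivWithinAt (fun t => com m (y t).2) 0 (Ici 0) t := by
    have h : HasDerivWithinAt (fun t => com m (y t).2)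
        ((∑ a, (m a : ℂ) * accel m (y t).1 a) / ((∑ a, m a : ℝ) : ℂ)) (Ici 0) t := by
      unfold com
      exact (HasDerivWithinAt.fun_sum fun a _ => (hv a).const_mul (m a : ℂ)).div_const _
    rwa [com_accel, zero_div] at h
  have e1 : HasDerivWithinAt (fun t => (cent m (y t)).1) (cent m (y t)).2 (Ici 0) t := by
    rw [hasDerivWithinAt_pi]
    intro a
    exact (hq a).sub hcq
  have e2 : HasDerivWithinAt (fun t => (cent m (y t)).2) (accel m (cent m (y t)).1) (Ici 0) t := by
    rw [hasDerivWithinAt_pi]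
    intro a
    have h := (hv a).sub hcv
    rw [sub_zero] at h
    have h2 : accel m (cent m (y t)).1 = accel m (y t).1 := accel_shift m _ _
    rw [h2]
    exact h
  exact e1.prodMk e2

/-- The solution in the centre of mass frame that starts at `z` exists for all positive times,
along it the distances of body `2` to the bodies `0` and `1` grow at least linearly, and the
distance of the bodies `0` and `1` stays bounded. -/
def EscapesCom (m : Fin 3 → ℝ) (z : State) : Prop :=
  ∃ x : ℝ → State, x 0 = z ∧ IsSol m (Ici 0) x ∧ ∃ a ρ : ℝ, 0 < a ∧ ∀ᶠ t in atTop,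
    a * t ≤ ‖(x t).1 2 - (x t).1 0‖ ∧ a * t ≤ ‖(x t).1 2 - (x t).1 1‖ ∧
    ‖(x t).1 1 - (x t).1 0‖ ≤ ρ

theorem escapes_cent {m : Fin 3 → ℝ} (hm : ∀ a, 0 < m a) {z : State} (hz : Escapes m z) :
    EscapesCom m (cent m z) := by
  obtain ⟨y, hy0, hy, a, ρ, ha, h⟩ := hz
  refine ⟨fun t => cent m (y t), by rw [← hy0], isSol_cent hm hy, a, ρ, ha, ?_⟩
  filter_upwards [h] with t ht
  have e : ∀ i j, (cent m (y t)).1 i - (cent m (y t)).1 j = (y t).1 i - (y t).1 j := by
    intro i j
    unfold cent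
    ring
  simp only [e]
  exact ht

theorem distPer_nat {x : ℝ → State} {T : ℝ} (h : DistPer x T) (k : ℕ) (t : ℝ) (a b : Fin 3) :
    ‖(x (t + k * T)).1 a - (x (t + k * T)).1 b‖ = ‖(x t).1 a - (x t).1 b‖ := by
  induction k with
  | zero => simp
  | succ k ih =>
    have e : t + ((k + 1 : ℕ) : ℝ) * T = (t + k * T) + T := by push_cast; ring
    rw [e, h, ih]

theorem near_bound {η e : ℝ} (he0 : 0 ≤ e) (he1 : e ≤ 1) {m : Fin 3 → ℝ} {x : ℝ → State}
    (h : NearLagrange η e m x) : ∃ R : ℝ, ∀ t, 0 ≤ t → ‖(x t).1 2 - (x t).1 0‖ < R := by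
  obtain ⟨L, ω, s, u, c, θ, hL, -, -, hu, hc, -, h⟩ := h
  refine ⟨η * L + ‖c‖ * (L * 3) + 1, fun t ht => ?_⟩
  have h1 := (h t ht).2.1
  have hE : ‖ellPos e (θ t)‖ ≤ 3 := by
    unfold ellPos
    have hs : Real.sqrt (1 - e ^ 2) ≤ 1 := by
      rw [Real.sqrt_le_one]
      nlinarith
    have hs0 := Real.sqrt_nonneg (1 - e ^ 2)
    refine (norm_add_le _ _).trans ?_
    rw [norm_mul, Complex.norm_I, mul_one, Complex.norm_real, Complex.norm_real]
    have a1 : ‖Real.cos (θ t) - e‖ ≤ 2 := by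
      rw [Real.norm_eq_abs, abs_le]
      constructor <;> linarith [Real.neg_one_le_cos (θ t), Real.cos_le_one (θ t)]
    have a2 : ‖Real.sqrt (1 - e ^ 2) * Real.sin (θ t)‖ ≤ 1 := by
      rw [norm_mul, Real.norm_eq_abs, Real.norm_eq_abs, abs_of_nonneg hs0]
      calc _ ≤ 1 * 1 := mul_le_mul hs (Real.abs_sin_le_one _) (abs_nonneg _) zero_le_one
        _ = 1 := one_mul 1
    linarith
  have h2 : ‖c * (L * u * ellPos e (θ t))‖ ≤ ‖c‖ * (L * 3) := by
    rw [norm_mul, norm_mul, norm_mul, hu, mul_one, Complex.norm_real, Real.norm_eq_abs,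
      abs_of_pos hL]
    gcongr
  have h3 : ‖(x t).1 2 - (x t).1 0‖ ≤ ‖((x t).1 2 - (x t).1 0) -
      c * (L * u * ellPos e (θ t))‖ + ‖c * (L * u * ellPos e (θ t))‖ := by
    have := norm_add_le (((x t).1 2 - (x t).1 0) - c * (L * u * ellPos e (θ t)))
      (c * (L * u * ellPos e (θ t)))
    rwa [sub_add_cancel] at this
  linarith

/-- There is `η > 0` such that for all positive masses with `|m 0 - m 1| ≤ η (m 0 + m 1)` and
`m 2 ≤ η (m 0 + m 1)`, all eccentricities `e ≤ η` and every solution `x` of the planar three-body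
problem in the centre of mass frame that stays `η`-close to a Lagrange homographic solution of
eccentricity `e` for all `t ≥ 0`: every neighbourhood of `x 0` contains states of the centre of
mass frame from which body `2` escapes to infinity (while the bodies `0` and `1` stay together),
and if `x` is relative periodic then its orbit is not Lyapunov stable. -/
theorem result : ∃ η : ℝ, 0 < η ∧ ∀ m : Fin 3 → ℝ, (∀ a, 0 < m a) →
    |m 0 - m 1| ≤ η * (m 0 + m 1) → m 2 ≤ η * (m 0 + m 1) →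
    ∀ e : ℝ, 0 ≤ e → e ≤ η → ∀ x : ℝ → State, IsSol m univ x → NearLagrange η e m x →
    (∀ U ∈ 𝓝 (x 0), ∃ z ∈ U, z ∈ phaseSpace m ∧ EscapesCom m z) ∧
    ∀ T : ℝ, 0 < T → DistPer x T → ¬ LyapunovStable m (range x) := by
  obtain ⟨η₀, hη₀, hG⟩ := Pool.Agent.Results.MP_6e7c44_mp.LagrangeEquilibriaEscape.result
  refine ⟨min η₀ 1, lt_min hη₀ one_pos, ?_⟩
  intro m hm h1 h2 e he0 he1 x hx hn
  have hM : 0 ≤ m 0 + m 1 := by linarith [hm 0, hm 1]
  have hmin : min η₀ 1 ≤ η₀ := min_le_left _ _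
  have hsolv : Solves m x := fun t _ =>
    ⟨(hx t (mem_univ t)).1.1, (hx t (mem_univ t)).2.mono (subset_univ _)⟩
  have hn' : NearLagrange η₀ e m x := by
    obtain ⟨L, ω, s, u, c, θ, hL, hω, hK, hu, hc, hθ, h⟩ := hn
    refine ⟨L, ω, s, u, c, θ, hL, hω, hK, hu, hc, hθ, fun t ht => ?_⟩
    obtain ⟨a1, a2, a3, a4⟩ := h t ht
    have b1 : min η₀ 1 * L ≤ η₀ * L := mul_le_mul_of_nonneg_right hmin hL.le
    have b2 : min η₀ 1 * (|ω| * L) ≤ η₀ * (|ω| * L) :=
      mul_le_mul_of_nonneg_right hmin (by positivity)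
    exact ⟨a1.trans b1, a2.trans b1, a3.trans b2, a4.trans b2⟩
  have key : ∀ U ∈ 𝓝 (x 0), ∃ z ∈ U, z ∈ phaseSpace m ∧ EscapesCom m z := by
    intro U hU
    have h0 : cent m (x 0) = x 0 := cent_of_mem (hx 0 (mem_univ 0)).1
    have hU' : cent m ⁻¹' U ∈ 𝓝 (x 0) := by
      apply (continuous_cent m).continuousAt.preimage_mem_nhds
      rwa [h0]
    obtain ⟨z, hz, hE⟩ := hG m hm (h1.trans (mul_le_mul_of_nonneg_right hmin hM))
      (h2.trans (mul_le_mul_of_nonneg_right hmin hM)) e he0 (he1.trans hmin) x hsolv hn' _ hU'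
    have hE' := escapes_cent hm hE
    obtain ⟨y, hy0, hy, -⟩ := hE
    refine ⟨cent m z, hz, ?_, hE'⟩
    apply cent_mem hm
    rw [← hy0]
    exact (hy 0 le_rfl).1
  refine ⟨key, ?_⟩
  intro T hT hper hst
  obtain ⟨R, hR⟩ := near_bound he0 (he1.trans (min_le_right _ _)) hn
  have hR' : ∀ t, ‖(x t).1 2 - (x t).1 0‖ < R := by
    intro t
    obtain ⟨k, hk⟩ := exists_nat_ge (-t / T)
    rw [← distPer_nat hper k t 2 0]
    apply hR
    have := mul_le_mul_of_nonneg_right hk hT.le
    rw [div_mul_cancel₀ _ hT.ne'] at this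
    linarith
  obtain ⟨U₂, hU2, hγ, hst'⟩ := hst {w | ‖w.1 2 - w.1 0‖ < R}
    (isOpen_lt (by fun_prop) continuous_const) (by
      rintro _ ⟨t, rfl⟩
      exact hR' t)
  obtain ⟨z, hz, -, y, hy0, hy, a, ρ, ha, hev⟩ := key U₂ (hU2.mem_nhds (hγ ⟨0, rfl⟩))
  obtain ⟨t, ⟨ht1, -, -⟩, ht2, ht3⟩ :=
    (hev.and ((eventually_ge_atTop 0).and (eventually_ge_atTop (R / a)))).exists
  have h3 : ‖(y t).1 2 - (y t).1 0‖ < R := hst' y hy (by rw [hy0]; exact hz) t ht2
  have h4 : R ≤ a * t := by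
    rw [div_le_iff₀ ha] at ht3
    linarith
  linarith

end Pool.Agent.Results.MP_5027f4_mp.LagrangeTrianglesUnstable
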